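import Pool.Agent.W734.TWB.Stms

/-!
# Project TWB: the variational bounds hold for `C¹` functions
-/

set_option autoImplicit false

open MeasureTheory Set Filter Metric Topology
open scoped Convolution

noncomputable section

namespace W440.TWB

open Pool.Agent.W734.TWB

/-- mollification -/
theorem approx {E : Type} [NormedAddCommGroup E] [NormedSpace ℝ E] [FiniteDimensional ℝ E]
    [MeasurableSpace E] [BorelSpace E] (μ : Measure E) [μ.IsAddHaarMeasure]
    (G : (E →L[ℝ] ℂ) → ℝ) (hG : Continuous G) (A : ℝ) (hA : ∀ L, |G L| ≤ A * ‖L‖ ^ 2)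
    (W : E → ℝ) (hWm : Measurable W) (hW0 : ∀ x, 0 ≤ W x) (hWb : ∃ M : ℝ, ∀ x, W x ≤ M)
    (hWs : HasCompactSupport W) (φ : E → ℂ) (hφ : ContDiff ℝ 1 φ) (hs : HasCompactSupport φ) :
    ∃ ψ : ℕ → E → ℂ, (∀ n, ContDiff ℝ ((⊤ : ℕ∞) : WithTop ℕ∞) (ψ n)) ∧
      (∀ n, HasCompactSupport (ψ n)) ∧
      Tendsto (fun n => ∫ y, (G (fderiv ℝ (ψ n) y) + W y * ‖1 - ψ n y‖ ^ 2) ∂μ) atTop
        (𝓝 (∫ y, (G (fderiv ℝ φ y) + W y * ‖1 - φ y‖ ^ 2) ∂μ)) := by
  -- the bumps
  let b : ℕ → ContDiffBump (0 : E) := fun n =>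
    ⟨1 / ((n : ℝ) + 2), 1 / ((n : ℝ) + 1), by positivity, by
      apply one_div_lt_one_div_of_lt <;> [positivity; linarith]⟩
  have hbr : ∀ n, (b n).rOut = 1 / ((n : ℝ) + 1) := fun n => rfl
  have hbt : Tendsto (fun n => (b n).rOut) atTop (𝓝 0) := by
    simp only [hbr]
    exact tendsto_one_div_add_atTop_nhds_zero_nat
  have hb1 : ∀ n, (b n).rOut ≤ 1 := by
    intro n
    rw [hbr, div_le_one (by positivity)]
    have : (0 : ℝ) ≤ n := Nat.cast_nonneg n
    linarith
  have hφc : Continuous φ := hφ.continuous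
  have hdc : Continuous (fderiv ℝ φ) := hφ.continuous_fderiv one_ne_zero
  have hds : HasCompactSupport (fderiv ℝ φ) := hs.fderiv (𝕜 := ℝ)
  obtain ⟨M0, hM0⟩ := hs.exists_bound_of_continuous hφc
  obtain ⟨M1, hM1⟩ := hds.exists_bound_of_continuous hdc
  obtain ⟨M2, hM2⟩ := hWb
  let ψ : ℕ → E → ℂ := fun n => (b n).normed μ ⋆[ContinuousLinearMap.lsmul ℝ ℝ, μ] φ
  have hψ : ∀ n, ContDiff ℝ ((⊤ : ℕ∞) : WithTop ℕ∞) (ψ n) := by
    intro n
    exact (b n).hasCompactSupport_normed.contDiff_convolution_left _ ((b n).contDiff_normed)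
      hφc.locallyIntegrable
  have hψd : ∀ n x, fderiv ℝ (ψ n) x =
      ((b n).normed μ ⋆[ContinuousLinearMap.lsmul ℝ ℝ, μ] (fderiv ℝ φ)) x := by
    intro n x
    have hbc : LocallyIntegrable ((b n).normed μ) μ := (b n).continuous_normed.locallyIntegrable
    have h1 := (hs.hasFDerivAt_convolution_right (ContinuousLinearMap.lsmul ℝ ℝ)
      hbc hφ x).fderiv
    rw [h1]
    rfl
  have hK1 : IsCompact (cthickening 1 (tsupport φ)) := hs.isCompact.cthickening
  have hout : ∀ x, x ∉ cthickening 1 (tsupport φ) → ∀ n, ∀ y ∈ ball x (b n).rOut,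
      y ∉ tsupport φ := by
    intro x hx n y hy hyt
    apply hx
    refine mem_cthickening_of_dist_le x y 1 _ hyt ?_
    rw [dist_comm]
    exact (mem_ball.1 hy).le.trans (hb1 n)
  have hz0 : ∀ x, x ∉ cthickening 1 (tsupport φ) → ∀ n, ψ n x = 0 := by
    intro x hx n
    have h0 : ∀ y ∈ ball x (b n).rOut, φ y = 0 := fun y hy =>
      image_eq_zero_of_notMem_tsupport (hout x hx n y hy)
    have h1 : dist (ψ n x) (φ x) ≤ 0 := by
      refine (b n).dist_normed_convolution_le hφc.aestronglyMeasurable ?_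
      intro y hy
      rw [h0 y hy, h0 x (mem_ball_self (b n).rOut_pos), dist_self]
    rw [h0 x (mem_ball_self (b n).rOut_pos), dist_zero_right] at h1
    exact norm_le_zero_iff.1 h1
  have hz1 : ∀ x, x ∉ cthickening 1 (tsupport φ) → ∀ n, fderiv ℝ (ψ n) x = 0 := by
    intro x hx n
    have h0 : ∀ y ∈ ball x (b n).rOut, fderiv ℝ φ y = 0 := fun y hy =>
      fderiv_of_notMem_tsupport ℝ (hout x hx n y hy)
    have h1 : dist (fderiv ℝ (ψ n) x) (fderiv ℝ φ x) ≤ 0 := by
      rw [hψd]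
      refine (b n).dist_normed_convolution_le hdc.aestronglyMeasurable ?_
      intro y hy
      rw [h0 y hy, h0 x (mem_ball_self (b n).rOut_pos), dist_self]
    rw [h0 x (mem_ball_self (b n).rOut_pos), dist_zero_right] at h1
    exact norm_le_zero_iff.1 h1
  have hB0 : ∀ x n, ‖ψ n x‖ ≤ 3 * M0 := by
    intro x n
    have h1 : dist (ψ n x) (φ x) ≤ 2 * M0 := by
      refine (b n).dist_normed_convolution_le hφc.aestronglyMeasurable ?_
      intro y _
      rw [dist_eq_norm]
      have := norm_sub_le (φ y) (φ x)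
      linarith [hM0 x, hM0 y]
    rw [dist_eq_norm] at h1
    have h2 : ‖ψ n x‖ ≤ ‖ψ n x - φ x‖ + ‖φ x‖ := by
      have := norm_add_le (ψ n x - φ x) (φ x)
      rwa [sub_add_cancel] at this
    linarith [hM0 x]
  have hB1 : ∀ x n, ‖fderiv ℝ (ψ n) x‖ ≤ 3 * M1 := by
    intro x n
    have h1 : dist (fderiv ℝ (ψ n) x) (fderiv ℝ φ x) ≤ 2 * M1 := by
      rw [hψd]
      refine (b n).dist_normed_convolution_le hdc.aestronglyMeasurable ?_
      intro y _
      rw [dist_eq_norm]
      have := norm_sub_le (fderiv ℝ φ y) (fderiv ℝ φ x)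
      linarith [hM1 x, hM1 y]
    rw [dist_eq_norm] at h1
    have h2 : ‖fderiv ℝ (ψ n) x‖ ≤ ‖fderiv ℝ (ψ n) x - fderiv ℝ φ x‖ + ‖fderiv ℝ φ x‖ := by
      have := norm_add_le (fderiv ℝ (ψ n) x - fderiv ℝ φ x) (fderiv ℝ φ x)
      rwa [sub_add_cancel] at this
    linarith [hM1 x]
  refine ⟨ψ, hψ, ?_, ?_⟩
  · intro n
    exact HasCompactSupport.intro hK1 fun x hx => hz0 x hx n
  · set K : Set E := cthickening 1 (tsupport φ) ∪ tsupport W with hK
    have hKc : IsCompact K := hK1.union hWs.isCompact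
    have hM00 : 0 ≤ M0 := (norm_nonneg _).trans (hM0 0)
    have hM10 : 0 ≤ M1 := (norm_nonneg _).trans (hM1 0)
    have hM20 : 0 ≤ M2 := (hW0 0).trans (hM2 0)
    refine tendsto_integral_of_dominated_convergence
      (K.indicator fun _ => |A| * (3 * M1) ^ 2 + M2 * (1 + 3 * M0) ^ 2) ?_ ?_ ?_ ?_
    · intro n
      have h1 : Continuous (fun y => G (fderiv ℝ (ψ n) y)) :=
        hG.comp ((hψ n).continuous_fderiv (by simp))
      have h2 : Continuous (fun y => ‖1 - ψ n y‖ ^ 2) := by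
        have := (hψ n).continuous
        fun_prop
      exact (h1.measurable.add (hWm.mul h2.measurable)).aestronglyMeasurable
    · rw [integrable_indicator_iff hKc.measurableSet]
      exact integrableOn_const hKc.measure_lt_top.ne
    · intro n
      refine Eventually.of_forall fun y => ?_
      by_cases hy : y ∈ K
      · rw [indicator_of_mem hy, Real.norm_eq_abs]
        refine (abs_add_le _ _).trans (add_le_add ?_ ?_)
        · refine (hA _).trans ?_
          refine mul_le_mul (le_abs_self A) ?_ (by positivity) (abs_nonneg _)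
          exact pow_le_pow_left₀ (norm_nonneg _) (hB1 y n) 2
        · rw [abs_mul, abs_of_nonneg (hW0 y), abs_of_nonneg (by positivity : 0 ≤ ‖1 - ψ n y‖ ^ 2)]
          refine mul_le_mul (hM2 y) ?_ (by positivity) hM20
          refine pow_le_pow_left₀ (norm_nonneg _) ?_ 2
          refine (norm_sub_le _ _).trans ?_
          rw [norm_one]
          linarith [hB0 y n]
      · rw [indicator_of_notMem hy]
        have h1 : y ∉ cthickening 1 (tsupport φ) := fun h => hy (Or.inl h)
        have h2 : y ∉ tsupport W := fun h => hy (Or.inr h)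
        rw [hz1 y h1 n, image_eq_zero_of_notMem_tsupport h2, zero_mul, add_zero]
        have := hA 0
        rw [norm_zero] at this
        rw [Real.norm_eq_abs]
        simpa using this
    · refine Eventually.of_forall fun y => ?_
      have h0 : Tendsto (fun n => ψ n y) atTop (𝓝 (φ y)) :=
        ContDiffBump.convolution_tendsto_right_of_continuous hbt hφc y
      have h1 : Tendsto (fun n => fderiv ℝ (ψ n) y) atTop (𝓝 (fderiv ℝ φ y)) := by
        simp only [hψd]
        exact ContDiffBump.convolution_tendsto_right_of_continuous hbt hdc y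
      refine Tendsto.add ((hG.tendsto _).comp h1) (Tendsto.const_mul _ ?_)
      exact ((tendsto_const_nhds.sub h0).norm).pow 2

theorem b1c : S_B1C := by
  intro W hW φ hφ hs
  obtain ⟨ψ, h1, h2, h3⟩ := approx (volume : Measure E3)
    (fun L => 2 * ∑ k : Fin 3, ‖L (EuclideanSpace.single k (1 : ℝ))‖ ^ 2)
    (by fun_prop) 6 (by
      intro L
      rw [abs_of_nonneg (by positivity)]
      have : ∀ k : Fin 3, ‖L (EuclideanSpace.single k (1 : ℝ))‖ ^ 2 ≤ ‖L‖ ^ 2 := by
        intro k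
        refine pow_le_pow_left₀ (norm_nonneg _) ?_ 2
        refine (L.le_opNorm _).trans ?_
        rw [PiLp.norm_single, norm_one, mul_one]
      have h3 := Finset.sum_le_sum (s := Finset.univ) fun k _ => this k
      rw [Finset.sum_const, Finset.card_univ, Fintype.card_fin] at h3
      simp only [nsmul_eq_mul, Nat.cast_ofNat] at h3
      linarith) W hW.meas hW.nonneg hW.bdd hW.supp φ hφ hs
  refine ge_of_tendsto' h3 fun n => ?_
  refine csInf_le ⟨0, ?_⟩ ⟨ψ n, h1 n, h2 n, rfl⟩
  rintro B ⟨χ, -, -, rfl⟩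
  refine integral_nonneg fun y => ?_
  have h5 : 0 ≤ g3 χ y := Finset.sum_nonneg fun _ _ => by positivity
  have h6 := hW.nonneg y
  show (0 : ℝ) ≤ 2 * g3 χ y + W y * ‖1 - χ y‖ ^ 2
  positivity

theorem b2c : S_B2C := by
  intro V hV φ hφ hs
  have : (volume : Measure (E3 × E3)).IsAddHaarMeasure :=
    Measure.prod.instIsAddHaarMeasure (volume : Measure E3) (volume : Measure E3)
  obtain ⟨ψ, h1, h2, h3⟩ := approx (volume : Measure (E3 × E3))
    (fun L => ∑ k : Fin 3, (‖L (EuclideanSpace.single k (1 : ℝ), 0)‖ ^ 2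
    + ‖L (0, EuclideanSpace.single k (1 : ℝ))‖ ^ 2
    + ‖L (EuclideanSpace.single k (1 : ℝ), EuclideanSpace.single k (1 : ℝ))‖ ^ 2))
    (by fun_prop) 9 (by
      intro L
      rw [abs_of_nonneg (by positivity)]
      have : ∀ a b : E3, ‖a‖ ≤ 1 → ‖b‖ ≤ 1 → ‖L (a, b)‖ ^ 2 ≤ ‖L‖ ^ 2 := by
        intro a b ha hb
        refine pow_le_pow_left₀ (norm_nonneg _) ?_ 2
        refine (L.le_opNorm _).trans ?_
        refine mul_le_of_le_one_right (norm_nonneg _) ?_
        rw [Prod.norm_def]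
        exact max_le ha hb
      have hn : ∀ k : Fin 3, ‖(EuclideanSpace.single k (1 : ℝ) : E3)‖ ≤ 1 := by
        intro k
        rw [PiLp.norm_single, norm_one]
      have hn0 : ‖(0 : E3)‖ ≤ 1 := by
        rw [norm_zero]
        exact zero_le_one
      have h4 : ∀ k : Fin 3, (‖L (EuclideanSpace.single k (1 : ℝ), 0)‖ ^ 2
        + ‖L (0, EuclideanSpace.single k (1 : ℝ))‖ ^ 2
        + ‖L (EuclideanSpace.single k (1 : ℝ), EuclideanSpace.single k (1 : ℝ))‖ ^ 2)
          ≤ 3 * ‖L‖ ^ 2 := by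
        intro k
        have a1 := this _ _ (hn k) hn0
        have a2 := this _ _ hn0 (hn k)
        have a3 := this _ _ (hn k) (hn k)
        linarith
      have h3 := Finset.sum_le_sum (s := Finset.univ) fun k _ => h4 k
      rw [Finset.sum_const, Finset.card_univ, Fintype.card_fin] at h3
      simp only [nsmul_eq_mul, Nat.cast_ofNat] at h3
      linarith) V hV.meas hV.nonneg hV.bdd hV.supp φ hφ hs
  refine ge_of_tendsto' h3 fun n => ?_
  refine csInf_le ⟨0, ?_⟩ ⟨ψ n, h1 n, h2 n, rfl⟩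
  rintro B ⟨χ, -, -, rfl⟩
  refine integral_nonneg fun y => ?_
  have h5 : 0 ≤ g6 χ y := Finset.sum_nonneg fun _ _ => by positivity
  have h6 := hV.nonneg y
  show (0 : ℝ) ≤ g6 χ y + V y * ‖1 - χ y‖ ^ 2
  positivity

end W440.TWB
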